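import Pool.Agent.Lib.MP_80aaf5_lc.Alg6.Main

/-!
# An NP-hard disjoint NP-pair relative to additive extensions of oracles, with NP different from
coNP

No proof technique that survives additive (linear) encodings of the oracle, in particular no
algebrizing one, can derive the conjecture of Even, Selman and Yacobi, or its consequence that `NP`
differs from `UP`, from `NP ≠ coNP`.
-/

namespace Pool.Agent.Results.MP_80aaf5_lc.AdditiveConverse

open ESY ESY.Few

/-- The multilinear extension `ext` is an additive extension of oracles. For every additive
extension `E`, every oracle `X` and all subexponential time bounds `T` there are an oracle `Y` and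
sets `U`, `V`, `L` such that, with `A = X ⊕ Y` and `Ã = A ⊕ E A`:

* `NP` relative to `Ã` is contained in `P` relative to `A ⊕ S` for every separator `S` of `(U, V)`,
  and in `UP` relative to `A`;
* relative to every oracle `B` with `A` in `P` relative to `B` and `B` in `P` relative to `Ã`, the
  pair `(U, V)` is an `NP`-hard disjoint `NP`-pair, `NP` is contained in `UP`, and `L` is in `NP`
  but its complement is not accepted by nondeterministic machines within the time bounds `T`. -/
theorem result : AdditiveExt ext ∧ ∀ E : Oracle → Oracle, AdditiveExt E → ∀ (X : Oracle)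
    (T : ℕ → ℕ → ℕ), Subexponential T → ∃ (Y : Oracle) (U V L : Set (List Bool)),
      (∀ S, Separator U V S → ∀ L', InNP (join (join X Y) (E (join X Y))) L' →
        InP (join (join X Y) S) L') ∧
      (∀ L', InNP (join (join X Y) (E (join X Y))) L' → InUPk 1 (join X Y) L') ∧
      ∀ B : Oracle, InP B {s | join X Y s = true} →
        InP (join (join X Y) (E (join X Y))) {s | B s = true} →
        DisjointNPPair B U V ∧ NPHard B U V ∧ (∀ L', InNP B L' → InUPk 1 B L') ∧
          InNP B L ∧ ¬ InNTime T B Lᶜ :=
  ⟨ESY.Alg.Gen.additiveExt_ext, ESY.Alg6.final⟩

end Pool.Agent.Results.MP_80aaf5_lc.AdditiveConverse
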