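import Pool.Agent.Lib.MP_80aaf5_lc.AlgGen.Main

/-!
# No NP-hard disjoint NP-pair relative to generic oracles with additive extensions

No proof technique that survives additive (linear) encodings of the oracle, in particular no
algebrizing one, can refute the conjecture of Even, Selman and Yacobi.
-/

namespace Pool.Agent.Results.MP_80aaf5_lc.AdditiveESY

open ESY Filter

/-- The multilinear extension `ext` is an additive extension of oracles. Let `E` be any additive
extension, `X` any oracle and `T` any sequence of subexponential time bounds. For all oracles `R`
in a comeager set, with `A = X ⊕ R` and `Ã = A ⊕ E A`: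

* no disjoint `NP`-pair is `NP`-hard relative to `B`, for every oracle `B` with `A` in `P` relative
  to `B` and `B` in `P` relative to `Ã`;
* there are an oracle `S` and a language `L` in `NP` relative to `A` such that every disjoint
  `NP`-pair relative to `Ã` has a separator of the form `q ↦ S (p ++ q)` for some string `p`, but
  relative to `Ã ⊕ S`, and relative to `Ã ⊕ S (p ++ ·)` for each `p`, one can neither decide `L`
  deterministically nor accept its complement nondeterministically, within the bounds `T`. -/
theorem result : AdditiveExt ext ∧ ∀ E : Oracle → Oracle, AdditiveExt E → ∀ (X : Oracle)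
    (T : ℕ → ℕ → ℕ), Subexponential T → ∀ᶠ R in residual Oracle,
      (∀ B : Oracle, InP B {s | join X R s = true} →
        InP (join (join X R) (E (join X R))) {s | B s = true} → ESYRel B) ∧
      ∃ (S : Oracle) (L : Set (List Bool)), InNP (join X R) L ∧
        (∀ U V, DisjointNPPair (join (join X R) (E (join X R))) U V →
          ∃ p : List Bool, Separator U V fun q => S (p ++ q)) ∧
        ∀ p : List Bool,
          ¬ InTime T (join (join (join X R) (E (join X R))) fun q => S (p ++ q)) L ∧
          ¬ InNTime T (join (join (join X R) (E (join X R))) fun q => S (p ++ q)) Lᶜ :=
  ⟨ESY.Alg.Gen.additiveExt_ext, fun E hE X T hT => ESY.Alg.Gen.final E hE X T hT⟩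

end Pool.Agent.Results.MP_80aaf5_lc.AdditiveESY
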