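import Pool.Agent.Lib.MP_80aaf5_lc.RAll.Final

/-!
# Relative to a random oracle all disjoint NP-pairs together are not NP-hard
-/

namespace Pool.Agent.Results.MP_80aaf5_lc.RandomAllPairs

open ESY MeasureTheory

theorem inTime_of {T T' : ℕ → ℕ → ℕ} (h : ∀ c, ∃ c', T' c' = T c) {O : Oracle}
    {L : Set (List Bool)} (hL : InTime T O L) : InTime T' O L := by
  obtain ⟨M, c, hM⟩ := hL
  obtain ⟨c', hc⟩ := h c
  exact ⟨M, c', fun x => by rw [hc]; exact hM x⟩

theorem inNTime_of {T T' : ℕ → ℕ → ℕ} (h : ∀ c, ∃ c', T' c' = T c) {O : Oracle}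
    {L : Set (List Bool)} (hL : InNTime T O L) : InNTime T' O L := by
  obtain ⟨M, c, hM⟩ := hL
  obtain ⟨c', hc⟩ := h c
  exact ⟨M, c', fun x => by rw [hc]; exact hM x⟩

/-- Let `X` be any oracle and `T` any sequence of subexponential time bounds. For almost every
oracle `R` the following holds relative to `O = X ⊕ R`. No disjoint `NP`-pair is `NP`-hard. More
strongly, there are one oracle `S` and one language `L` in `NP` relative to `O` such that

* `S` contains separators of all disjoint `NP`-pairs: for all disjoint `U` and `V` in `NP`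
  relative to `O` there is a string `p` such that the set of the `q` with `p q ∈ S` contains `U`
  and is disjoint from `V`,
* but relative to `O ⊕ S` the language `L` is not decidable in polynomial time, not decidable
  within the time bounds `T`, and its complement is not accepted nondeterministically within the
  time bounds `T`. -/
theorem result (X : Oracle) (T : ℕ → ℕ → ℕ) (hT : Subexponential T) :
    ∀ᵐ R ∂coin, ESYRel (join X R) ∧ ∃ (S : Oracle) (L : Set (List Bool)),
      (∀ U V : Set (List Bool), InNP (join X R) U → InNP (join X R) V → Disjoint U V →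
        ∃ p : List Bool, Separator U V fun q => S (p ++ q)) ∧
      InNP (join X R) L ∧ ¬ InP (join (join X R) S) L ∧
      ¬ InTime T (join (join X R) S) L ∧ ¬ InNTime T (join (join X R) S) Lᶜ := by
  let T' : ℕ → ℕ → ℕ := fun c => if c % 2 = 0 then T (c / 2) else poly (c / 2)
  have hT' : Subexponential T' := by
    intro c k
    by_cases h : c % 2 = 0
    · simpa only [T', h, if_true] using hT (c / 2) k
    · simpa only [T', h, if_false] using subexponential_poly (c / 2) k
  have h0 : ∀ c, ∃ c', T' c' = T c := fun c => ⟨2 * c, by simp [T']⟩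
  have h1 : ∀ c, ∃ c', T' c' = poly c := by
    intro c
    refine ⟨2 * c + 1, ?_⟩
    have h2 : (2 * c + 1) % 2 ≠ 0 := by omega
    have h3 : (2 * c + 1) / 2 = c := by omega
    simp only [T', h2, if_false, h3]
  filter_upwards [main (tameJoin X) poly subexponential_poly, RAll.main_one (tameJoin X) T' hT']
    with R hR1 hR2
  obtain ⟨S, hS, h2, h3⟩ := hR2
  exact ⟨esy_of_strong hR1, S, Test (join X R), hS, inNP_test _, fun h => h2 (inTime_of h1 h),
    fun h => h2 (inTime_of h0 h), fun h => h3 (inNTime_of h0 h)⟩

end Pool.Agent.Results.MP_80aaf5_lc.RandomAllPairs
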