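import Pool.Agent.Lib.MP_80aaf5_lc.PH.Final

/-!
# `NP = UP`, an `NP`-hard disjoint `NP`-pair, and an infinite polynomial hierarchy
-/

namespace Pool.Agent.Results.MP_80aaf5_lc.UPInfinitePH

open ESY

/-- For every oracle `X` there is an oracle `Y` such that, relative to `O = X ⊕ Y`,

* every language of `NP` is accepted by a nondeterministic polynomial-time machine with at most
  one accepting witness for each input (`NP = UP`);
* the polynomial hierarchy is infinite;
* some disjoint `NP`-pair is `NP`-hard, that is, all its separators are hard for `NP` under
  polynomial-time Turing reductions. -/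
theorem result (X : Oracle) : ∃ Y : Oracle,
    (∀ L, InNP (join X Y) L → InUPk 1 (join X Y) L) ∧ PHInfinite (join X Y) ∧
      ∃ A B, DisjointNPPair (join X Y) A B ∧ NPHard (join X Y) A B :=
  ESY.PHI.final X

end Pool.Agent.Results.MP_80aaf5_lc.UPInfinitePH
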